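import Pool.Agent.Y217.PB.Stm

/-! Project PB: classes with a jump at an edge. -/

set_option autoImplicit false

universe u

namespace Pool.Agent.Y721.PB

open Set Topology Metric
open Pool.Agent.Helper775.Surf Pool.Agent.Helper775.Clo Pool.Agent.Y217.PB
open scoped InnerProductSpace

variable {M : Type u} [TopologicalSpace M]

/-! ### arcs -/

/-- the part of an arc with parameter in an interval is connected -/
theorem arc_pre [CompactSpace M] [T2Space M] {A : Set M} (hA : IsClosed A) {g : M → ℝ}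
    (hg : Continuous g) (hi : InjOn g A) (him : g '' A = Icc 0 1) {I : Set ℝ}
    (hI : I.OrdConnected) : IsPreconnected (A ∩ g ⁻¹' I) := by
  have hcA : IsCompact A := hA.isCompact
  haveI : CompactSpace A := isCompact_iff_compactSpace.1 hcA
  have hinj : Function.Injective (fun x : A => g x.1) := by
    intro x y hxy
    exact Subtype.ext (hi x.2 y.2 hxy)
  have hcont : Continuous (fun x : A => g x.1) := hg.comp continuous_subtype_val
  have hcl : IsClosedMap (fun x : A => g x.1) := hcont.isClosedMap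
  have hs : IsPreconnected (Icc (0 : ℝ) 1 ∩ I) :=
    (Set.ordConnected_Icc.inter hI).isPreconnected
  have hr : Icc (0 : ℝ) 1 ∩ I ⊆ range (fun x : A => g x.1) := by
    rintro r ⟨hr, -⟩
    rw [← him] at hr
    obtain ⟨a, ha, rfl⟩ := hr
    exact ⟨⟨a, ha⟩, rfl⟩
  have h1 := hs.preimage_of_isClosedMap hinj hcl hr
  have h2 := h1.image (fun x : A => x.1) continuous_subtype_val.continuousOn
  have h3 : (fun x : A => x.1) '' ((fun x : A => g x.1) ⁻¹' (Icc (0 : ℝ) 1 ∩ I))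
      = A ∩ g ⁻¹' I := by
    ext x
    constructor
    · rintro ⟨y, hy, rfl⟩
      exact ⟨y.2, hy.2⟩
    · rintro ⟨hx, hx'⟩
      refine ⟨⟨x, hx⟩, ⟨?_, hx'⟩, rfl⟩
      rw [← him]
      exact mem_image_of_mem g hx
  rwa [h3] at h2

theorem off_closed {ι κ : Type} [Finite ι] [Finite κ] {Γ : FGraph M ι κ} (hΓ : Γ.Good) (k : κ) :
    IsClosed (Γ.off k) := by
  refine IsClosed.union (isClosed_iUnion_of_finite fun i => (hΓ.fat i).closed) ?_
  exact (Set.toFinite _).isClosed_biUnion fun l _ => (hΓ.arc l).closed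

theorem pts_closed {ι κ : Type} [Finite ι] [Finite κ] {Γ : FGraph M ι κ} (hΓ : Γ.Good) :
    IsClosed Γ.pts := by
  refine IsClosed.union (isClosed_iUnion_of_finite fun i => (hΓ.fat i).closed) ?_
  exact isClosed_iUnion_of_finite fun l => (hΓ.arc l).closed

theorem opn_off {ι κ : Type} {Γ : FGraph M ι κ} (hΓ : Γ.Good) {k : κ} {m : M}
    (hm : m ∈ Γ.opn k) : m ∉ Γ.off k := by
  obtain ⟨hmA, hmpq⟩ := hm
  have hmpq' : ¬ (m = Γ.p0 k ∨ m = Γ.p1 k) := by
    intro h
    exact hmpq h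
  rintro (h | h)
  · obtain ⟨i, hi⟩ := mem_iUnion.1 h
    exact hmpq' (hΓ.inter k i m hmA hi)
  · obtain ⟨l, hl⟩ := mem_iUnion.1 h
    obtain ⟨hlk, hl⟩ := mem_iUnion.1 hl
    obtain ⟨i, hi⟩ := hΓ.ee k l m (fun h => hlk h.symm) hmA hl
    exact hmpq' (hΓ.inter k i m hmA hi)

theorem p0_off {ι κ : Type} {Γ : FGraph M ι κ} (hΓ : Γ.Good) (k : κ) : Γ.p0 k ∈ Γ.off k :=
  Or.inl (mem_iUnion.2 ⟨_, hΓ.m0 k⟩)

theorem p1_off {ι κ : Type} {Γ : FGraph M ι κ} (hΓ : Γ.Good) (k : κ) : Γ.p1 k ∈ Γ.off k :=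
  Or.inl (mem_iUnion.2 ⟨_, hΓ.m1 k⟩)

theorem pts_eq {ι κ : Type} (Γ : FGraph M ι κ) (k : κ) : Γ.pts = Γ.off k ∪ Γ.A k := by
  ext x
  constructor
  · rintro (h | h)
    · exact Or.inl (Or.inl h)
    · obtain ⟨l, hl⟩ := mem_iUnion.1 h
      by_cases hlk : l = k
      · subst hlk; exact Or.inr hl
      · exact Or.inl (Or.inr (mem_biUnion (by exact hlk) hl))
  · rintro ((h | h) | h)
    · exact Or.inl h
    · obtain ⟨l, hl⟩ := mem_iUnion.1 h
      obtain ⟨-, hl⟩ := mem_iUnion.1 hl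
      exact Or.inr (mem_iUnion.2 ⟨l, hl⟩)
    · exact Or.inr (mem_iUnion.2 ⟨k, h⟩)

theorem z2_c1 : ∀ a b c : ZMod 2, a + b = c → b + c = a := by decide

theorem preconn_of_comp {F : Set M} (h : ∀ x ∈ F, ∀ y ∈ F,
    connectedComponentIn F x = connectedComponentIn F y) : IsPreconnected F := by
  rcases F.eq_empty_or_nonempty with rfl | ⟨x, hx⟩
  · exact isPreconnected_empty
  · have : F = connectedComponentIn F x := by
      apply Subset.antisymm
      · intro y hy
        rw [h x hx y hy]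
        exact mem_connectedComponentIn hy
      · exact connectedComponentIn_subset F x
    rw [this]
    exact isPreconnected_connectedComponentIn

theorem jump1 (hG : JGlue.{u}) (hA : JArc.{u}) (hS : JSep.{u}) (hL : JLoc.{u}) : JJump1.{u} := by
  intro M _ _ _ _ _ _ N f S ι κ _ _ Γ hΓ k m hm W hW
  have hoffc := off_closed hΓ k
  have hmoff := opn_off hΓ hm
  obtain ⟨hmA, hmpq⟩ := hm
  have hmp : m ≠ Γ.p0 k := fun h => hmpq (Or.inl h)
  have hmq : m ≠ Γ.p1 k := fun h => hmpq (Or.inr h)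
  have harc := hΓ.arc k
  obtain ⟨g, hgc, hgi, hgim, hgp, hgq⟩ := harc.par
  obtain ⟨D, ψ, φ, hmD, -, hchart, hDW⟩ :=
    small_int (S.pt m) (Filter.inter_mem hW (hoffc.isOpen_compl.mem_nhds hmoff))
  have hDoff : ∀ x ∈ D, x ∉ Γ.off k := fun x hx => (hDW hx).2
  have hpD : Γ.p0 k ∉ D := fun h => hDoff _ h (p0_off hΓ k)
  have hqD : Γ.p1 k ∉ D := fun h => hDoff _ h (p1_off hΓ k)
  -- the size of the small piece of the arc
  have hK : IsClosed (g '' (Γ.A k \ D)) :=
    ((harc.closed.sdiff hchart.isOpen).isCompact.image hgc).isClosed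
  have hgm : g m ∉ g '' (Γ.A k \ D) := by
    rintro ⟨a, ⟨haA, haD⟩, hga⟩
    exact haD (hgi haA hmA hga ▸ hmD)
  obtain ⟨δ, hδ, hball⟩ := Metric.isOpen_iff.1 hK.isOpen_compl _ hgm
  have hJD : ∀ a ∈ Γ.A k, |g a - g m| < δ → a ∈ D := by
    intro a haA had
    by_contra haD
    have : g a ∈ (g '' (Γ.A k \ D))ᶜ := hball (by rwa [Metric.mem_ball, Real.dist_eq])
    exact this ⟨a, ⟨haA, haD⟩, rfl⟩
  set J : Set M := Γ.A k ∩ g ⁻¹' Ioo (g m - δ) (g m + δ) with hJ
  have hJmem : ∀ a, a ∈ J ↔ a ∈ Γ.A k ∧ |g a - g m| < δ := by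
    intro a
    rw [hJ, mem_inter_iff, mem_preimage, mem_Ioo, abs_lt]
    constructor
    · rintro ⟨h1, h2, h3⟩; exact ⟨h1, by linarith, by linarith⟩
    · rintro ⟨h1, h2, h3⟩; exact ⟨h1, by linarith, by linarith⟩
  have hJpre : IsPreconnected J := arc_pre harc.closed hgc hgi hgim Set.ordConnected_Ioo
  set R : Set M := Γ.A k ∩ {a | δ ≤ |g a - g m|} with hR
  have hRc : IsClosed R := harc.closed.inter
    (isClosed_le continuous_const (continuous_abs.comp (hgc.sub continuous_const)))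
  have hmJ : m ∈ J := (hJmem m).2 ⟨hmA, by simpa using hδ⟩
  set O : Set M := D \ R with hO
  have hOo : IsOpen O := hchart.isOpen.sdiff hRc
  have hJO : J ⊆ O := by
    intro a ha
    obtain ⟨h1, h2⟩ := (hJmem a).1 ha
    exact ⟨hJD a h1 h2, fun h => absurd h.2 (not_le.2 h2)⟩
  have hOA : ∀ a ∈ O, a ∈ Γ.A k → a ∈ J := by
    intro a haO haA
    refine (hJmem a).2 ⟨haA, ?_⟩
    by_contra h
    exact haO.2 ⟨haA, not_lt.1 h⟩
  set B : Set M := connectedComponentIn O m with hB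
  have hBo : IsOpen B := hOo.connectedComponentIn
  have hBpre : IsPreconnected B := isPreconnected_connectedComponentIn
  have hBO : B ⊆ O := connectedComponentIn_subset O m
  have hBD : B ⊆ D := fun x hx => (hBO hx).1
  have hmB : m ∈ B := mem_connectedComponentIn (hJO hmJ)
  have hJB : J ⊆ B := hJpre.subset_connectedComponentIn hmJ hJO
  refine ⟨B, hBo, hBpre, hmB, fun x hx => (hDW (hBD hx)).1, ?_, ?_⟩
  · exact hL M N f S (Γ.A k) (Γ.p0 k) (Γ.p1 k) m D ψ φ harc hmA hmp hmq hchart hpD hqD B hBo hBD hmB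
  intro x hx x' hx' hxA hx'A hcomp
  have hptsx : ∀ y ∈ B, y ∉ Γ.A k → y ∉ Γ.pts := by
    intro y hy hyA hyp
    rw [pts_eq Γ k] at hyp
    rcases hyp with h | h
    · exact hDoff y (hBD hy) h
    · exact hyA h
  refine ⟨hptsx x hx hxA, hptsx x' hx' hx'A, ?_⟩
  have hne : x ≠ x' := by
    rintro rfl; exact hcomp rfl
  obtain ⟨v, hv, ⟨s, hs⟩, hex, hex'⟩ := pair_ex S.pt S.pun hBo hBpre hx hx' hne
  obtain ⟨-, -, hacyc, -⟩ := hA M (Γ.A k) _ _ harc
  have hvA : Coc (Γ.A k) v := by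
    refine hv.mono ?_
    rintro y hy (rfl | rfl)
    · exact hxA hy
    · exact hx'A hy
  obtain ⟨s', hs'⟩ := hacyc v hvA
  have hoffB : Γ.off k ⊆ (Bᶜ : Set M) := fun y hy hyB => hDoff y (hBD hyB) hy
  refine ⟨v, hv, hex, hex', s, s', hs.mono hoffB, hs', ?_⟩
  intro heq
  apply hcomp
  -- the two outer pieces of the arc
  have hpJ : δ ≤ |g (Γ.p0 k) - g m| := by
    by_contra h
    exact hpD (hJD _ harc.p_mem (not_le.1 h))
  have hqJ : δ ≤ |g (Γ.p1 k) - g m| := by
    by_contra h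
    exact hqD (hJD _ harc.q_mem (not_le.1 h))
  have hgm01 : g m ∈ Icc (0 : ℝ) 1 := by
    rw [← hgim]; exact mem_image_of_mem g hmA
  have hlow : δ ≤ g m := by
    rw [hgp, zero_sub, abs_neg, abs_of_nonneg hgm01.1] at hpJ
    exact hpJ
  have hhigh : g m + δ ≤ 1 := by
    rw [hgq, abs_of_nonneg (by linarith [hgm01.2])] at hqJ
    linarith
  have hA1 : IsPreconnected (Γ.A k ∩ g ⁻¹' Iic (g m - δ)) :=
    arc_pre harc.closed hgc hgi hgim Set.ordConnected_Iic
  have hA2 : IsPreconnected (Γ.A k ∩ g ⁻¹' Ici (g m + δ)) :=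
    arc_pre harc.closed hgc hgi hgim Set.ordConnected_Ici
  have hBA : ∀ a ∈ Γ.A k, δ ≤ |g a - g m| → a ∉ B := by
    intro a haA had haB
    have := (hJmem a).1 (hOA a (hBO haB) haA)
    exact absurd this.2 (not_lt.2 had)
  have hsub1 : Γ.A k ∩ g ⁻¹' Iic (g m - δ) ⊆ (Bᶜ : Set M) := by
    rintro a ⟨haA, ha⟩
    refine hBA a haA ?_
    have ha' : g a ≤ g m - δ := ha
    rw [abs_sub_comm, abs_of_nonneg (by linarith)]
    linarith
  have hsub2 : Γ.A k ∩ g ⁻¹' Ici (g m + δ) ⊆ (Bᶜ : Set M) := by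
    rintro a ⟨haA, ha⟩
    refine hBA a haA ?_
    have ha' : g m + δ ≤ g a := ha
    rw [abs_of_nonneg (by linarith)]
    linarith
  obtain ⟨c1, hc1⟩ := triv_uniq hA1 (hs.mono hsub1) (hs'.mono inter_subset_left)
  obtain ⟨c2, hc2⟩ := triv_uniq hA2 (hs.mono hsub2) (hs'.mono inter_subset_left)
  have hp1 : Γ.p0 k ∈ Γ.A k ∩ g ⁻¹' Iic (g m - δ) := by
    refine ⟨harc.p_mem, ?_⟩
    change g (Γ.p0 k) ≤ g m - δ
    rw [hgp]; linarith
  have hq1 : Γ.p1 k ∈ Γ.A k ∩ g ⁻¹' Ici (g m + δ) := by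
    refine ⟨harc.q_mem, ?_⟩
    change g m + δ ≤ g (Γ.p1 k)
    rw [hgq]; linarith
  have hc12 : c1 = c2 := by
    rw [← hc1 _ hp1, ← hc2 _ hq1]; exact heq
  have hcon : ∀ a ∈ Γ.A k ∩ (Bᶜ : Set M), s' a + c1 = s a := by
    rintro a ⟨haA, haB⟩
    have had : δ ≤ |g a - g m| := by
      by_contra h
      exact haB (hJB ((hJmem a).2 ⟨haA, not_le.1 h⟩))
    apply z2_c1
    rcases le_total (g a) (g m) with h | h
    · refine hc1 a ⟨haA, ?_⟩
      change g a ≤ g m - δ
      rw [abs_sub_comm, abs_of_nonneg (by linarith)] at had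
      linarith
    · rw [hc12]
      refine hc2 a ⟨haA, ?_⟩
      change g m + δ ≤ g a
      rw [abs_of_nonneg (by linarith)] at had
      linarith
  obtain ⟨σ, hσ, -, -⟩ := hG M (Γ.A k) (Bᶜ : Set M) v _ _ harc.closed hBo.isClosed_compl
    (hs'.add_const c1) hs hcon
  have hcompl : (Γ.A k ∪ (Bᶜ : Set M))ᶜ = B \ Γ.A k := by
    ext y
    simp only [mem_compl_iff, mem_union, not_or, not_not, mem_sdiff]
    exact and_comm
  have hsep := hS M N f S (Γ.A k ∪ (Bᶜ : Set M)) x x' v 0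
    (harc.closed.union hBo.isClosed_compl) (by
      rintro (h | h)
      · exact hxA h
      · exact h hx) (by
      rintro (h | h)
      · exact hx'A h
      · exact h hx') hne hv hex (coc_zero _) ⟨σ, by rwa [add_zero]⟩
  rwa [hcompl] at hsep

/-! ### classes which are essential only at given points -/

theorem coc_pt {x : M} {t : M → M → ZMod 2} (h : Coc {x} t) : ¬ Ess x t := by
  obtain ⟨W, hW, hWt⟩ := h x rfl
  intro he
  apply he (interior W) (interior_mem_nhds.2 hW)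
  refine ⟨fun a => t x a, ?_⟩
  intro a ha
  refine ⟨interior W, isOpen_interior.mem_nhds ha.1, ?_⟩
  intro b hb c hc
  have hxW : x ∈ W := mem_of_mem_nhds hW
  have h1 := hWt b (interior_subset hb) x hxW c (interior_subset hc)
  have h2 := hWt x hxW b (interior_subset hb) x hxW
  have h3 := hWt x hxW x hxW x hxW
  have key : ∀ a b c d e : ZMod 2, a + b = c → d + a = e → e + e = e → c = d + b := by decide
  exact key _ _ _ _ _ h1 h2 h3

/-- a point off the graph is connected to a point of `Y` off the graph by a class -/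
theorem to_Y [CompactSpace M] [T2Space M] [ConnectedSpace M] [LocallyPathConnectedSpace M] {N : ℕ}
    {f : M → EuclideanSpace ℝ (Fin N)} (S : CSetup f) {G : Set M} (hG : IsClosed G) {Y : Set M}
    (hY : ∀ C ∈ comps G, (Y ∩ C).Nonempty) {x : M} (hx : x ∉ G) :
    ∃ y ∈ Y, ∃ v : M → M → ZMod 2, Coc ({x, y}ᶜ : Set M) v ∧ Null G v ∧ (x ∉ Y → Ess x v) := by
  obtain ⟨y, hyY, hyC⟩ := hY (connectedComponentIn Gᶜ x) ⟨x, hx, rfl⟩
  refine ⟨y, hyY, ?_⟩
  by_cases hxy : x = y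
  · subst hxy
    exact ⟨0, coc_zero _, null_zero _, fun h => absurd hyY h⟩
  · have ho : IsOpen (connectedComponentIn Gᶜ x) := hG.isOpen_compl.connectedComponentIn
    obtain ⟨v, hv, hn, he, -⟩ := pair_ex S.pt S.pun ho isPreconnected_connectedComponentIn
      (mem_connectedComponentIn hx) hyC hxy
    refine ⟨v, hv, hn.mono ?_, fun _ => he⟩
    intro z hz hzC
    exact connectedComponentIn_subset _ _ hzC hz

theorem not_ess_of_coc {x a b : M} {t : M → M → ZMod 2} (h : Coc ({a, b}ᶜ : Set M) t) (ha : x ≠ a)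
    (hb : x ≠ b) : ¬ Ess x t := by
  apply coc_pt
  refine h.mono ?_
  rintro y hy (h' | h')
  · exact ha ((mem_singleton_iff.1 hy).symm.trans h')
  · exact hb ((mem_singleton_iff.1 hy).symm.trans h')

theorem triv_congr {Z : Set M} {t t' : M → M → ZMod 2} {s : M → ZMod 2} (h : Triv Z t s)
    (h' : ∀ x ∈ Z, ∃ U ∈ 𝓝 x, ∀ a ∈ U, ∀ b ∈ U, t' a b = t a b) : Triv Z t' s := by
  intro x hx
  obtain ⟨W, hW, hWt⟩ := h x hx
  obtain ⟨U, hU, hUt⟩ := h' x hx
  refine ⟨W ∩ U, Filter.inter_mem hW hU, fun a ha b hb => ?_⟩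
  rw [hUt a ha.2 b hb.2]
  exact hWt a ha.1 b hb.1

theorem jump2 (hJ : JJump1.{u}) (hX : JExt.{u}) (hE : JEssAdd.{u}) (hA : JArc.{u}) :
    JJump2.{u} := by
  intro M _ _ _ _ _ _ N f S ι κ _ _ Γ hΓ Y hYf hYp hYC k
  have hptsc := pts_closed hΓ
  have harc := hΓ.arc k
  obtain ⟨-, -, -, -, hdense, -⟩ := hA M (Γ.A k) _ _ harc
  have hopn : (Γ.opn k).Nonempty := by
    by_contra h
    rw [not_nonempty_iff_eq_empty] at h
    have := hdense harc.p_mem
    unfold FGraph.opn at h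
    rw [h, closure_empty] at this
    exact this
  obtain ⟨m, hm⟩ := hopn
  obtain ⟨B, -, -, -, -, hBn, hB⟩ := hJ M N f S ι κ Γ hΓ k m hm univ Filter.univ_mem
  obtain ⟨x, hx, x', hx', hne⟩ : ∃ x ∈ B \ Γ.A k, ∃ x' ∈ B \ Γ.A k,
      connectedComponentIn (B \ Γ.A k) x ≠ connectedComponentIn (B \ Γ.A k) x' := by
    by_contra h
    push Not at h
    exact hBn (preconn_of_comp h)
  obtain ⟨hxp, hx'p, v, hv, hev, hev', s, s', hs, hs', hjump⟩ :=
    hB x hx.1 x' hx'.1 hx.2 hx'.2 hne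
  have hxx' : x ≠ x' := by
    rintro rfl; exact hne rfl
  obtain ⟨y, hyY, v1, hv1, ⟨r, hr⟩, he1⟩ := to_Y S hptsc hYC hxp
  obtain ⟨y', hy'Y, v2, hv2, ⟨r', hr'⟩, he2⟩ := to_Y S hptsc hYC hx'p
  have hY1 : (Y ∪ {x, x'}).Finite := hYf.union (toFinite _)
  have hsub : ∀ a b : M, a ∈ Y ∪ {x, x'} → b ∈ Y ∪ {x, x'} →
      ((Y ∪ {x, x'})ᶜ : Set M) ⊆ ({a, b}ᶜ : Set M) := by
    intro a b ha hb z hz hz'
    rcases hz' with h | h
    · exact hz (h ▸ ha)
    · exact hz (h ▸ hb)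
  have hxm : x ∈ Y ∪ {x, x'} := Or.inr (Or.inl rfl)
  have hx'm : x' ∈ Y ∪ {x, x'} := Or.inr (Or.inr rfl)
  have hw0 : Coc ((Y ∪ {x, x'})ᶜ : Set M) (v + v1 + v2) :=
    ((hv.mono (hsub _ _ hxm hx'm)).add (hv1.mono (hsub _ _ hxm (Or.inl hyY)))).add
      (hv2.mono (hsub _ _ hx'm (Or.inl hy'Y)))
  have hess : ∀ z ∈ Y ∪ {x, x'}, z ∉ Y → ¬ Ess z (v + v1 + v2) := by
    intro z hz hzY
    have hzy : z ≠ y := fun h => hzY (h ▸ hyY)
    have hzy' : z ≠ y' := fun h => hzY (h ▸ hy'Y)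
    rcases hz with hz | hz
    · exact absurd hz hzY
    rcases hz with hz | hz
    · -- z = x
      subst hz
      set O : Set M := ({x', y, y'} : Set M)ᶜ with hO
      have hOo : IsOpen O := (toFinite ({x', y, y'} : Set M)).isClosed.isOpen_compl
      have hzO : z ∈ O := by
        rintro (h | h | h)
        · exact hxx' h
        · exact hzy h
        · exact hzy' h
      have c0 : Coc (O \ {z}) v := hv.mono (by
        rintro w ⟨hw, hwz⟩ (h | h)
        · exact hwz h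
        · exact hw (Or.inl h))
      have c1 : Coc (O \ {z}) v1 := hv1.mono (by
        rintro w ⟨hw, hwz⟩ (h | h)
        · exact hwz h
        · exact hw (Or.inr (Or.inl h)))
      have c2 : Coc (O \ {z}) v2 := hv2.mono (by
        rintro w ⟨hw, hwz⟩ (h | h)
        · exact hw (Or.inl h)
        · exact hw (Or.inr (Or.inr h)))
      have e2 : ¬ Ess z v2 := not_ess_of_coc hv2 hxx' hzy'
      have e1 : Ess z v1 := he1 hzY
      have e01 := hE M z O v v1 (S.pt z) hOo hzO c0 c1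
      have e012 := hE M z O (v + v1) v2 (S.pt z) hOo hzO (c0.add c1) c2
      tauto
    · -- z = x'
      have hz' : z = x' := hz
      subst hz'
      set O : Set M := ({x, y, y'} : Set M)ᶜ with hO
      have hOo : IsOpen O := (toFinite ({x, y, y'} : Set M)).isClosed.isOpen_compl
      have hzO : z ∈ O := by
        rintro (h | h | h)
        · exact hxx' h.symm
        · exact hzy h
        · exact hzy' h
      have c0 : Coc (O \ {z}) v := hv.mono (by
        rintro w ⟨hw, hwz⟩ (h | h)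
        · exact hw (Or.inl h)
        · exact hwz h)
      have c1 : Coc (O \ {z}) v1 := hv1.mono (by
        rintro w ⟨hw, hwz⟩ (h | h)
        · exact hw (Or.inl h)
        · exact hw (Or.inr (Or.inl h)))
      have c2 : Coc (O \ {z}) v2 := hv2.mono (by
        rintro w ⟨hw, hwz⟩ (h | h)
        · exact hwz h
        · exact hw (Or.inr (Or.inr h)))
      have e1 : ¬ Ess z v1 := not_ess_of_coc hv1 hxx'.symm hzy
      have e2 : Ess z v2 := he2 hzY
      have e01 := hE M z O v v1 (S.pt z) hOo hzO c0 c1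
      have e012 := hE M z O (v + v1) v2 (S.pt z) hOo hzO (c0.add c1) c2
      tauto
  obtain ⟨w, hw, hwl⟩ := hX M (Y ∪ {x, x'}) Y (v + v1 + v2) hY1 subset_union_left hw0 hess
  refine ⟨w, hw, s + r + r', s' + r + r', ?_, ?_, ?_⟩
  · have hsubp : Γ.off k ⊆ Γ.pts := by rw [pts_eq Γ k]; exact subset_union_left
    refine triv_congr ((hs.add (hr.mono hsubp)).add (hr'.mono hsubp)) ?_
    intro z hz
    apply hwl z
    rintro (h | h | h)
    · exact hYp z h (hsubp hz)
    · exact hxp (h ▸ hsubp hz)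
    · exact hx'p ((mem_singleton_iff.1 h) ▸ hsubp hz)
  · have hsubp : Γ.A k ⊆ Γ.pts := by rw [pts_eq Γ k]; exact subset_union_right
    refine triv_congr ((hs'.add (hr.mono hsubp)).add (hr'.mono hsubp)) ?_
    intro z hz
    apply hwl z
    rintro (h | h | h)
    · exact hYp z h (hsubp hz)
    · exact hxp (h ▸ hsubp hz)
    · exact hx'p ((mem_singleton_iff.1 h) ▸ hsubp hz)
  · have key : ∀ a b c d p q r t : ZMod 2, a + b ≠ c + d →
        a + p + q + (b + p + q) ≠ c + r + t + (d + r + t) := by decide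
    exact key _ _ _ _ _ _ _ _ hjump

end Pool.Agent.Y721.PB
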